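import Pool.Agent.H.MP_d4a354_an.C

namespace Pool.Agent.Results.MP_d4a354_an.Yes

open Filter MeasureTheory Pool.Agent.H.MP_d4a354_an

/-- proportion of the digit `k` among the first `n` digits -/
noncomputable def freq {D : Type} [DecidableEq D] (ε : ℕ → D) (k : D) (n : ℕ) : ℝ :=
  (((Finset.range n).filter fun i => ε i = k).card : ℝ) / n

/-- expansions of `x` in base `β` with upper frequencies `p` and lower frequencies `q` -/
def E (β : ℝ) (p q : Fin (⌊β⌋₊ + 1) → ℝ) (x : ℝ) : Set (ℕ → Fin (⌊β⌋₊ + 1)) :=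
  {ε | HasSum (fun i => ((ε i : ℕ) : ℝ) / β ^ (i + 1)) x ∧
    ∀ k, limsup (freq ε k) atTop = p k ∧ liminf (freq ε k) atTop = q k}

theorem result (β : ℝ) (hβ : 1 < β) (_hn : ∀ n : ℕ, β ≠ n) (p q : Fin (⌊β⌋₊ + 1) → ℝ)
    (hp : ∀ k, p k ∈ Set.Icc (0 : ℝ) 1) (hq : ∀ k, q k ∈ Set.Icc (0 : ℝ) 1) :
    (∀ᵐ x ∂volume.restrict (Set.Icc (0 : ℝ) (⌊β⌋₊ / (β - 1))), (E β p q x).Nonempty) ↔
    (∀ᵐ x ∂volume.restrict (Set.Icc (0 : ℝ) (⌊β⌋₊ / (β - 1))),
      Cardinal.mk (E β p q x) = Cardinal.continuum) := by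
  refine ⟨fun h => ?_, fun h => h.mono fun x hx => ?_⟩
  swap
  · rw [← Set.nonempty_coe_sort, ← Cardinal.mk_ne_zero_iff, hx]
    exact Cardinal.continuum_ne_zero
  let g : Fin (⌊β⌋₊ + 1) × Bool → Fin (⌊β⌋₊ + 1) → ℝ :=
    fun τ d => if d = τ.1 then (if τ.2 then 1 else -1) else 0
  let a : Fin (⌊β⌋₊ + 1) × Bool → ℝ := fun τ => if τ.2 then p τ.1 else -q τ.1
  have hg : ∀ τ d, |g τ d| ≤ 1 := by
    intro τ d
    simp only [g]
    split_ifs <;> simp
  have ha : ∀ τ, |a τ| ≤ 1 := by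
    intro τ
    simp only [a]
    split_ifs
    · exact abs_le.2 ⟨by linarith [(hp τ.1).1], (hp τ.1).2⟩
    · exact abs_le.2 ⟨by linarith [(hq τ.1).2], by linarith [(hq τ.1).1]⟩
  have hm : 0 < ⌊β⌋₊ := Nat.floor_pos.2 hβ.le
  have key : ∀ x ε, ε ∈ E β p q x ↔
      (∀ n, rem β ε n x ∈ II β ⌊β⌋₊) ∧ ∀ τ, Ev (S g τ ε) (a τ) := by
    intro x ε
    refine and_congr (hasSum_iff hβ ε x) ?_
    have e1 : ∀ k, freq ε k = fun n : ℕ => S g (k, true) ε n / n := by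
      intro k
      funext n
      simp [freq, S, g]
    have e2 : ∀ k, S g (k, false) ε = fun n => -S g (k, true) ε n := by
      intro k
      funext n
      simp only [S, g, ← Finset.sum_neg_distrib]
      refine Finset.sum_congr rfl fun i _ => ?_
      split_ifs <;> simp_all
    simp only [Prod.forall, Bool.forall_bool, e1, e2, limsup_iff (S_abs hg _ _),
      liminf_iff (S_abs hg _ _), a, if_true, Bool.false_eq_true, if_false, and_comm]
  rw [ae_restrict_iff' measurableSet_Icc] at h ⊢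
  have h1 : volume (II β ⌊β⌋₊ \ E1 β g a) = 0 := by
    refine measure_mono_null ?_ (ae_iff.1 h)
    intro x hx hx'
    obtain ⟨ε, hε⟩ := hx' hx.1
    exact hx.2 ⟨ε, good_of_ev hg ha ((key x ε).1 hε).2, ((key x ε).1 hε).1⟩
  filter_upwards [main2 hβ (Nat.lt_floor_add_one β) hm hg ha h1] with x hx hx'
  obtain ⟨e, h2, h3⟩ := hx hx'
  refine le_antisymm ((Cardinal.mk_set_le _).trans ?_) ?_
  · have : Cardinal.mk (ℕ → Fin (⌊β⌋₊ + 1)) = ((⌊β⌋₊ + 1 : ℕ) : Cardinal) ^ Cardinal.aleph0 := by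
      simp
    rw [this, Cardinal.nat_power_aleph0 (by omega)]
  · have : Cardinal.mk (ℕ → Bool) = Cardinal.continuum := by simp
    rw [← this]
    exact Cardinal.mk_le_of_injective (f := fun s => (⟨e s, (key x _).2 (h3 s)⟩ : E β p q x))
      fun s s' h => h2 (congrArg Subtype.val h)

end Pool.Agent.Results.MP_d4a354_an.Yes
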